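import Mathlib

set_option autoImplicit false

/-!
Arbitrarily long runs of consecutive integers with the same finite Collatz height.

Write `T x = x / 2` or `(3 x + 1) / 2`.  On a residue class `x = r` mod `2 ^ j` the map `T^j` is
affine with slope `3 ^ o / 2 ^ j`.  Two trajectories `u` and `v = 3 ^ δ u + e`, `u` ranging over a
residue class modulo a power of two, can be made to meet (with equal slopes) by choosing further
binary digits of `u`: this changes `(δ, e)` by one of four moves and `(0, 0)` can always be reached.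
By induction, there is for every `L` a residue class modulo a power of two such that
`n, n + 1, ..., n + L - 1` have the same iterate `T^k`, with the same number of odd steps, for all `n`
of this class.  The common value is `3 ^ o q + c` with `c` prime to `3`, and as `2` is a primitive root
modulo `3 ^ o` it is a power of two for suitable arbitrarily large `q`.
-/

namespace Pool.Agent.Results.MP_e99302_nt.LongRuns

/-- The Collatz map. -/
def C (n : ℕ) : ℕ := if n % 2 = 0 then n / 2 else 3 * n + 1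

/-! ### the accelerated map on the integers -/

/-- the accelerated Collatz map on the integers -/
def T (x : ℤ) : ℤ := if x % 2 = 0 then x / 2 else (3 * x + 1) / 2

/-- the number of odd terms among the first `j` terms of the trajectory of `x` -/
def od : ℕ → ℤ → ℕ
  | 0, _ => 0
  | j + 1, x => (if x % 2 = 0 then 0 else 1) + od j (T x)

theorem T_even {x : ℤ} (h : x % 2 = 0) : T x = x / 2 := by simp [T, h]

theorem T_odd {x : ℤ} (h : x % 2 = 1) : T x = (3 * x + 1) / 2 := by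
  unfold T
  rw [if_neg (by omega)]

theorem od_even {x : ℤ} (h : x % 2 = 0) (j : ℕ) : od (j + 1) x = od j (T x) := by
  simp [od, h]

theorem od_odd {x : ℤ} (h : x % 2 = 1) (j : ℕ) : od (j + 1) x = 1 + od j (T x) := by
  simp [od, h]

theorem od_add (j k : ℕ) (x : ℤ) : od (k + j) x = od k x + od j (T^[k] x) := by
  induction k generalizing x with
  | zero => simp [od]
  | succ k ih =>
    rw [show k + 1 + j = (k + j) + 1 by ring, Function.iterate_succ_apply]
    simp only [od]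
    rw [ih]
    ring

/-- `T^j` is affine on the residue classes modulo `2 ^ j`. -/
theorem affine (j : ℕ) (x q : ℤ) :
    T^[j] (x + 2 ^ j * q) = T^[j] x + 3 ^ (od j x) * q ∧ od j (x + 2 ^ j * q) = od j x := by
  induction j generalizing x q with
  | zero => simp [od]
  | succ j ih =>
    have e : x + 2 ^ (j + 1) * q = x + 2 * (2 ^ j * q) := by ring
    rcases Int.emod_two_eq_zero_or_one x with h | h
    · have h' : (x + 2 ^ (j + 1) * q) % 2 = 0 := by rw [e]; omega
      have hT : T (x + 2 ^ (j + 1) * q) = T x + 2 ^ j * q := by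
        rw [T_even h', T_even h, e]; omega
      rw [Function.iterate_succ_apply, Function.iterate_succ_apply, od_even h', od_even h, hT]
      exact ih (T x) q
    · have h' : (x + 2 ^ (j + 1) * q) % 2 = 1 := by rw [e]; omega
      have hT : T (x + 2 ^ (j + 1) * q) = T x + 2 ^ j * (3 * q) := by
        have e2 : (2 : ℤ) ^ j * (3 * q) = 3 * (2 ^ j * q) := by ring
        rw [T_odd h', T_odd h, e, e2]; omega
      rw [Function.iterate_succ_apply, Function.iterate_succ_apply, od_odd h', od_odd h, hT]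
      obtain ⟨h1, h2⟩ := ih (T x) (3 * q)
      refine ⟨?_, by rw [h2]⟩
      rw [h1, pow_add]; ring

/-! ### making two trajectories meet -/

/-- for `u` in some residue class modulo some `2 ^ j` the trajectories of `u` and `3 ^ δ u + e` meet at
time `j`, with the same slope -/
def M (δ : ℕ) (e : ℤ) : Prop :=
  ∃ (j : ℕ) (r : ℤ), ∀ u : ℤ, (2 : ℤ) ^ j ∣ u - r →
    T^[j] (3 ^ δ * u + e) = T^[j] u ∧ od j u = od j (3 ^ δ * u + e) + δ

theorem M_zero : M 0 0 := ⟨0, 0, fun u _ => by simp⟩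

theorem M_even {δ : ℕ} {e : ℤ} (h : M δ e) : M δ (2 * e) := by
  obtain ⟨j, r, H⟩ := h
  refine ⟨j + 1, 2 * r, fun u hu => ?_⟩
  obtain ⟨k, hk⟩ := hu
  have hu2 : u = 2 * (r + 2 ^ j * k) := by rw [pow_succ] at hk; linarith
  have h1 : u % 2 = 0 := by omega
  have h2 : (3 ^ δ * u + 2 * e) % 2 = 0 := by
    rw [hu2, show 3 ^ δ * (2 * (r + 2 ^ j * k)) + 2 * e = 2 * (3 ^ δ * (r + 2 ^ j * k) + e) by ring]
    omega
  have h3 : T u = r + 2 ^ j * k := by rw [T_even h1]; omega
  have h4 : T (3 ^ δ * u + 2 * e) = 3 ^ δ * (r + 2 ^ j * k) + e := by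
    rw [T_even h2, hu2,
      show 3 ^ δ * (2 * (r + 2 ^ j * k)) + 2 * e = 2 * (3 ^ δ * (r + 2 ^ j * k) + e) by ring]
    omega
  rw [Function.iterate_succ_apply, Function.iterate_succ_apply, od_even h1, od_even h2, h3, h4]
  exact H _ ⟨k, by ring⟩

/-- the class of the `u` with `(3 u + 1) / 2` in a given class -/
theorem exists_class (j : ℕ) (r : ℤ) : ∃ s : ℤ, (2 : ℤ) ^ (j + 1) ∣ 3 * s + 1 - 2 * r := by
  have hc : IsCoprime (3 : ℤ) (2 ^ (j + 1)) := by
    apply IsCoprime.pow_right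
    exact ⟨1, -1, by norm_num⟩
  obtain ⟨a, b, hab⟩ := hc
  refine ⟨a * (2 * r - 1), b * (1 - 2 * r), ?_⟩
  linear_combination (2 * r - 1) * hab


theorem M_down {δ : ℕ} {e : ℤ} (h : M δ e) : M (δ + 1) (2 * e + 3 ^ δ) := by
  obtain ⟨j, r, H⟩ := h
  obtain ⟨s, hs⟩ := exists_class j r
  refine ⟨j + 1, s, fun u hu => ?_⟩
  -- `3 u + 1 = 2 (r + 2 ^ j k)`
  have h0 : (2 : ℤ) ^ (j + 1) ∣ 3 * u + 1 - 2 * r := by
    have h := dvd_add (hu.mul_left 3) hs
    have e0 : 3 * (u - s) + (3 * s + 1 - 2 * r) = 3 * u + 1 - 2 * r := by ring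
    rwa [e0] at h
  obtain ⟨k, hk⟩ := h0
  have hu2 : 3 * u + 1 = 2 * (r + 2 ^ j * k) := by rw [pow_succ] at hk; linarith
  have h1 : u % 2 = 1 := by omega
  have hv : 3 ^ (δ + 1) * u + (2 * e + 3 ^ δ) = 2 * (3 ^ δ * (r + 2 ^ j * k) + e) := by
    rw [pow_succ]
    linear_combination (3 : ℤ) ^ δ * hu2
  have h2 : (3 ^ (δ + 1) * u + (2 * e + 3 ^ δ)) % 2 = 0 := by rw [hv]; omega
  have h3 : T u = r + 2 ^ j * k := by rw [T_odd h1]; omega
  have h4 : T (3 ^ (δ + 1) * u + (2 * e + 3 ^ δ)) = 3 ^ δ * (r + 2 ^ j * k) + e := by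
    rw [T_even h2, hv]; omega
  rw [Function.iterate_succ_apply, Function.iterate_succ_apply, od_odd h1, od_even h2, h3, h4]
  obtain ⟨h5, h6⟩ := H (r + 2 ^ j * k) ⟨k, by ring⟩
  exact ⟨h5, by omega⟩

/-- both odd -/
theorem M_both {δ : ℕ} {e f : ℤ} (hf : 2 * f = 3 * e + 1 - 3 ^ δ) (he : e % 2 = 0) (h : M δ f) :
    M δ e := by
  obtain ⟨j, r, H⟩ := h
  obtain ⟨s, hs⟩ := exists_class j r
  refine ⟨j + 1, s, fun u hu => ?_⟩
  have h0 : (2 : ℤ) ^ (j + 1) ∣ 3 * u + 1 - 2 * r := by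
    have h := dvd_add (hu.mul_left 3) hs
    have e0 : 3 * (u - s) + (3 * s + 1 - 2 * r) = 3 * u + 1 - 2 * r := by ring
    rwa [e0] at h
  obtain ⟨k, hk⟩ := h0
  have hu2 : 3 * u + 1 = 2 * (r + 2 ^ j * k) := by rw [pow_succ] at hk; linarith
  have h1 : u % 2 = 1 := by omega
  have hodd : (3 : ℤ) ^ δ % 2 = 1 := by
    have h3 : Odd ((3 : ℤ) ^ δ) := Odd.pow (by decide)
    exact Int.odd_iff.1 h3
  have hv : 3 * (3 ^ δ * u + e) + 1 = 2 * (3 ^ δ * (r + 2 ^ j * k) + f) := by
    linear_combination (3 : ℤ) ^ δ * hu2 - hf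
  have h2 : (3 ^ δ * u + e) % 2 = 1 := by omega
  have h3 : T u = r + 2 ^ j * k := by rw [T_odd h1]; omega
  have h4 : T (3 ^ δ * u + e) = 3 ^ δ * (r + 2 ^ j * k) + f := by
    rw [T_odd h2, hv]; omega
  rw [Function.iterate_succ_apply, Function.iterate_succ_apply, od_odd h1, od_odd h2, h3, h4]
  obtain ⟨h5, h6⟩ := H (r + 2 ^ j * k) ⟨k, by ring⟩
  exact ⟨h5, by omega⟩

/-- `u` even, `3 ^ δ u + e` odd -/
theorem M_up {δ : ℕ} {e f : ℤ} (hf : 2 * f = 3 * e + 1) (h : M (δ + 1) f) : M δ e := by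
  obtain ⟨j, r, H⟩ := h
  refine ⟨j + 1, 2 * r, fun u hu => ?_⟩
  obtain ⟨k, hk⟩ := hu
  have hu2 : u = 2 * (r + 2 ^ j * k) := by rw [pow_succ] at hk; linarith
  have h1 : u % 2 = 0 := by omega
  have he : e % 2 = 1 := by omega
  have h2 : (3 ^ δ * u + e) % 2 = 1 := by
    rw [hu2, show 3 ^ δ * (2 * (r + 2 ^ j * k)) + e = 2 * (3 ^ δ * (r + 2 ^ j * k)) + e by ring]
    omega
  have hv : 3 * (3 ^ δ * u + e) + 1 = 2 * (3 ^ (δ + 1) * (r + 2 ^ j * k) + f) := by
    rw [hu2, pow_succ]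
    linear_combination - hf
  have h3 : T u = r + 2 ^ j * k := by rw [T_even h1]; omega
  have h4 : T (3 ^ δ * u + e) = 3 ^ (δ + 1) * (r + 2 ^ j * k) + f := by
    rw [T_odd h2, hv]; omega
  rw [Function.iterate_succ_apply, Function.iterate_succ_apply, od_even h1, od_odd h2, h3, h4]
  obtain ⟨h5, h6⟩ := H (r + 2 ^ j * k) ⟨k, by ring⟩
  exact ⟨h5, by omega⟩

/-- a nonzero integer is a power of two times an odd integer: reduction of the second component -/
theorem M_halve {δ : ℕ} (hodd : ∀ e : ℤ, e % 2 = 1 → M δ e) : ∀ e : ℤ, e ≠ 0 → M δ e := by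
  intro e
  induction h : e.natAbs using Nat.strong_induction_on generalizing e with
  | _ n ih =>
    intro he
    rcases Int.emod_two_eq_zero_or_one e with h2 | h2
    · have h3 : e = 2 * (e / 2) := by omega
      rw [h3]
      apply M_even
      exact ih (e / 2).natAbs (by omega) _ rfl (by omega)
    · exact hodd e h2

theorem M_nat (e : ℕ) : M 0 (e : ℤ) := by
  induction e using Nat.strong_induction_on with
  | _ e ih =>
    rcases Nat.eq_zero_or_pos e with h0 | h0
    · subst h0; exact M_zero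
    · rcases Nat.mod_two_eq_zero_or_one e with h | h
      · have h1 : (e : ℤ) = 2 * ((e / 2 : ℕ) : ℤ) := by omega
        rw [h1]
        exact M_even (ih (e / 2) (by omega))
      · -- up, then halve, then down
        have hf : 2 * (((3 * e + 1) / 2 : ℕ) : ℤ) = 3 * (e : ℤ) + 1 := by omega
        apply M_up hf
        have key : ∀ g : ℕ, 1 ≤ g → g ≤ (3 * e + 1) / 2 → M 1 (g : ℤ) := by
          intro g
          induction g using Nat.strong_induction_on with
          | _ g ihg =>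
            intro hg1 hg2
            rcases Nat.mod_two_eq_zero_or_one g with h' | h'
            · have h1 : (g : ℤ) = 2 * ((g / 2 : ℕ) : ℤ) := by omega
              rw [h1]
              exact M_even (ihg (g / 2) (by omega) (by omega) (by omega))
            · have h1 : (g : ℤ) = 2 * (((g - 1) / 2 : ℕ) : ℤ) + 3 ^ 0 := by
                rw [pow_zero]; omega
              rw [h1]
              exact M_down (ih ((g - 1) / 2) (by omega))
        exact key _ (by omega) le_rfl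

theorem M_swap {e : ℤ} (h : M 0 e) : M 0 (-e) := by
  obtain ⟨j, r, H⟩ := h
  refine ⟨j, r + e, fun u hu => ?_⟩
  have := H (u - e) (by convert hu using 1; ring)
  simp only [pow_zero, one_mul, add_zero, sub_add_cancel] at this ⊢
  rw [← sub_eq_add_neg]
  exact ⟨this.1.symm, this.2.symm⟩

/-- two trajectories can always be made to meet -/
theorem M_all (δ : ℕ) : ∀ e : ℤ, M δ e := by
  induction δ with
  | zero =>
    intro e
    rcases le_total 0 e with h | h
    · obtain ⟨n, rfl⟩ := Int.eq_ofNat_of_zero_le h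
      exact M_nat n
    · obtain ⟨n, hn⟩ := Int.eq_ofNat_of_zero_le (neg_nonneg.2 h)
      have := M_swap (M_nat n)
      rwa [← hn, neg_neg] at this
  | succ δ ih =>
    have hpow : (3 : ℤ) ^ δ % 2 = 1 := by
      have h3 : Odd ((3 : ℤ) ^ δ) := Odd.pow (by decide)
      exact Int.odd_iff.1 h3
    have hodd : ∀ e : ℤ, e % 2 = 1 → M (δ + 1) e := by
      intro e he
      have h1 : e = 2 * ((e - 3 ^ δ) / 2) + 3 ^ δ := by omega
      rw [h1]
      exact M_down (ih _)
    intro e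
    rcases eq_or_ne e 0 with h0 | h0
    · subst h0
      have h1 : (1 : ℤ) < 3 ^ (δ + 1) := one_lt_pow₀ (by norm_num) (by omega)
      have h2 : (3 : ℤ) ^ (δ + 1) % 2 = 1 := by rw [pow_succ]; omega
      refine M_both (f := (1 - 3 ^ (δ + 1)) / 2) (by omega) (by norm_num) ?_
      exact M_halve hodd _ (by omega)
    · exact M_halve hodd e h0

/-! ### runs -/

/-- there are arbitrarily long runs which coalesce with equal slopes -/
theorem runs (L : ℕ) : ∃ (k : ℕ) (r : ℤ), ∀ u : ℤ, (2 : ℤ) ^ k ∣ u - r →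
    ∀ i : ℕ, i < L → T^[k] (u + i) = T^[k] u ∧ od k (u + i) = od k u := by
  induction L with
  | zero => exact ⟨0, 0, fun u _ i hi => absurd hi (by omega)⟩
  | succ L ih =>
    obtain ⟨k, r, H⟩ := ih
    set c := T^[k] r with hc
    set o := od k r with ho
    set c' := T^[k] (r + L) with hc'
    set o' := od k (r + L) with ho'
    -- a common extension
    suffices hs : ∃ (j : ℕ) (s : ℤ), ∀ q : ℤ, (2 : ℤ) ^ j ∣ q - s →
        T^[j] (3 ^ o' * q + c') = T^[j] (3 ^ o * q + c) ∧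
          od j (3 ^ o' * q + c') + o' = od j (3 ^ o * q + c) + o by
      obtain ⟨j, s, hs⟩ := hs
      refine ⟨k + j, r + 2 ^ k * s, fun u hu i hi => ?_⟩
      obtain ⟨m, hm⟩ := hu
      have hu2 : u = r + 2 ^ k * (s + 2 ^ j * m) := by
        rw [pow_add] at hm; linear_combination hm
      have hur : (2 : ℤ) ^ k ∣ u - r := ⟨s + 2 ^ j * m, by rw [hu2]; ring⟩
      obtain ⟨h1, h2⟩ := affine k r (s + 2 ^ j * m)
      rw [← hu2, ← hc, ← ho] at h1
      rw [← hu2, ← ho] at h2
      obtain ⟨h3, h4⟩ := affine k (r + L) (s + 2 ^ j * m)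
      have hu3 : r + L + 2 ^ k * (s + 2 ^ j * m) = u + L := by rw [hu2]; ring
      rw [hu3, ← hc', ← ho'] at h3
      rw [hu3, ← ho'] at h4
      rw [od_add, od_add, add_comm k j, Function.iterate_add_apply, Function.iterate_add_apply]
      rcases Nat.lt_succ_iff_lt_or_eq.1 hi with hi | hi
      · obtain ⟨h5, h6⟩ := H u hur i hi
        rw [h5, h6]
        exact ⟨rfl, rfl⟩
      · subst hi
        rw [h1, h2, h3, h4]
        obtain ⟨h5, h6⟩ := hs (s + 2 ^ j * m) ⟨m, by ring⟩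
        rw [show c' + 3 ^ o' * (s + 2 ^ j * m) = 3 ^ o' * (s + 2 ^ j * m) + c' by ring,
          show c + 3 ^ o * (s + 2 ^ j * m) = 3 ^ o * (s + 2 ^ j * m) + c by ring]
        exact ⟨h5, by omega⟩
    -- the class of the `q` with `3 ^ a q + d` in a given class
    have hcl : ∀ (a j : ℕ) (d w : ℤ), ∃ s : ℤ, ∀ q : ℤ, (2 : ℤ) ^ j ∣ q - s →
        (2 : ℤ) ^ j ∣ (3 ^ a * q + d) - w := by
      intro a j d w
      have hcop : IsCoprime ((3 : ℤ) ^ a) (2 ^ j) := by
        apply IsCoprime.pow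
        exact ⟨1, -1, by norm_num⟩
      obtain ⟨x, y, hxy⟩ := hcop
      refine ⟨x * (w - d), fun q hq => ?_⟩
      obtain ⟨m, hm⟩ := hq
      refine ⟨3 ^ a * m - y * (w - d), ?_⟩
      linear_combination (3 : ℤ) ^ a * hm + (w - d) * hxy
    rcases le_total o o' with h | h
    · obtain ⟨j, w, hM⟩ := M_all (o' - o) (c' - 3 ^ (o' - o) * c)
      obtain ⟨s, hs⟩ := hcl o j c w
      refine ⟨j, s, fun q hq => ?_⟩
      obtain ⟨h1, h2⟩ := hM _ (hs q hq)
      have e : 3 ^ (o' - o) * (3 ^ o * q + c) + (c' - 3 ^ (o' - o) * c) = 3 ^ o' * q + c' := by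
        have : (3 : ℤ) ^ o' = 3 ^ (o' - o) * 3 ^ o := by rw [← pow_add]; congr 1; omega
        rw [this]; ring
      rw [e] at h1 h2
      exact ⟨h1, by omega⟩
    · obtain ⟨j, w, hM⟩ := M_all (o - o') (c - 3 ^ (o - o') * c')
      obtain ⟨s, hs⟩ := hcl o' j c' w
      refine ⟨j, s, fun q hq => ?_⟩
      obtain ⟨h1, h2⟩ := hM _ (hs q hq)
      have e : 3 ^ (o - o') * (3 ^ o' * q + c') + (c - 3 ^ (o - o') * c') = 3 ^ o * q + c := by
        have : (3 : ℤ) ^ o = 3 ^ (o - o') * 3 ^ o' := by rw [← pow_add]; congr 1; omega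
        rw [this]; ring
      rw [e] at h1 h2
      exact ⟨h1.symm, by omega⟩

/-! ### powers of two in residue classes modulo powers of three -/

theorem T_mod_three (k : ℕ) (x : ℤ) (h : 1 ≤ od k x) : ¬ (3 : ℤ) ∣ T^[k] x := by
  induction k with
  | zero => simp [od] at h
  | succ k ih =>
    rw [Function.iterate_succ_apply']
    have h1 : od (k + 1) x = od k x + od 1 (T^[k] x) := od_add 1 k x
    rcases Int.emod_two_eq_zero_or_one (T^[k] x) with h2 | h2
    · have h3 : od 1 (T^[k] x) = 0 := by simp [od, h2]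
      have h4 := ih (by omega)
      rw [T_even h2]
      omega
    · rw [T_odd h2]
      omega

theorem four_pow (o : ℕ) : ∃ m : ℤ, (4 : ℤ) ^ (3 ^ o) = 1 + 3 ^ (o + 1) * m ∧ ¬ (3 : ℤ) ∣ m := by
  induction o with
  | zero => exact ⟨1, by norm_num, by norm_num⟩
  | succ o ih =>
    obtain ⟨m, h1, h2⟩ := ih
    refine ⟨m + 3 ^ (o + 1) * m ^ 2 + 3 ^ (2 * o + 1) * m ^ 3, ?_, ?_⟩
    · rw [pow_succ 3 o, pow_mul, h1]
      ring
    · intro h3
      apply h2
      have e : m + 3 ^ (o + 1) * m ^ 2 + 3 ^ (2 * o + 1) * m ^ 3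
          = m + 3 * (3 ^ o * m ^ 2 + 3 ^ (2 * o) * m ^ 3) := by ring
      rw [e] at h3
      omega

theorem two_pow_mod (o : ℕ) (c : ℤ) (hc : o = 0 ∨ ¬ (3 : ℤ) ∣ c) (B : ℕ) :
    ∃ s : ℕ, B ≤ s ∧ (3 : ℤ) ^ o ∣ 2 ^ s - c := by
  -- existence
  have h1 : ∃ s : ℕ, (3 : ℤ) ^ o ∣ 2 ^ s - c := by
    rcases hc with rfl | hc
    · exact ⟨0, by simp⟩
    induction o with
    | zero => exact ⟨0, by simp⟩
    | succ o ih =>
      rcases Nat.eq_zero_or_pos o with h0 | h0
      · subst h0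
        rcases (by omega : c % 3 = 1 ∨ c % 3 = 2) with h | h
        · exact ⟨0, by norm_num; omega⟩
        · exact ⟨1, by norm_num; omega⟩
      · obtain ⟨s, t, hs⟩ := ih
        obtain ⟨m, hm1, hm2⟩ := four_pow (o - 1)
        have ho : o - 1 + 1 = o := by omega
        rw [ho] at hm1
        -- choose `a` with `t + a c m` divisible by `3`
        obtain ⟨a, ha⟩ : ∃ a : ℕ, (3 : ℤ) ∣ t + a * (c * m) := by
          have hcm : ¬ (3 : ℤ) ∣ c * m := fun h => (Int.prime_three.dvd_or_dvd h).elim hc hm2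
          rcases (by omega : t % 3 = 0 ∨ t % 3 = 1 ∨ t % 3 = 2) with h | h | h
          · exact ⟨0, by push_cast; omega⟩
          · rcases (by omega : (c * m) % 3 = 1 ∨ (c * m) % 3 = 2) with h' | h'
            · exact ⟨2, by push_cast; omega⟩
            · exact ⟨1, by push_cast; omega⟩
          · rcases (by omega : (c * m) % 3 = 1 ∨ (c * m) % 3 = 2) with h' | h'
            · exact ⟨1, by push_cast; omega⟩
            · exact ⟨2, by push_cast; omega⟩
        have hpow : ∃ x : ℤ, (1 + 3 ^ o * m) ^ a = 1 + 3 ^ o * (a * m) + 3 ^ (o + 1) * x := by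
          clear ha
          induction a with
          | zero => exact ⟨0, by simp⟩
          | succ a iha =>
            obtain ⟨x, hx⟩ := iha
            obtain ⟨o', rfl⟩ : ∃ o', o = o' + 1 := ⟨o - 1, by omega⟩
            refine ⟨x + 3 ^ o' * (a * m ^ 2) + 3 ^ (o' + 1) * m * x, ?_⟩
            rw [pow_succ, hx]
            push_cast
            ring
        obtain ⟨x, hx⟩ := hpow
        obtain ⟨y, hy⟩ := ha
        refine ⟨s + 2 * 3 ^ (o - 1) * a, ?_⟩
        have e : (2 : ℤ) ^ (s + 2 * 3 ^ (o - 1) * a) = 2 ^ s * (1 + 3 ^ o * m) ^ a := by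
          rw [pow_add, pow_mul, pow_mul, ← hm1]; norm_num
        have e2 : (2 : ℤ) ^ s = c + 3 ^ o * t := by linear_combination hs
        obtain ⟨o', rfl⟩ : ∃ o', o = o' + 1 := ⟨o - 1, by omega⟩
        refine ⟨y + 3 ^ o' * (t * a * m) + (c + 3 ^ (o' + 1) * t) * x, ?_⟩
        rw [e, e2, hx]
        linear_combination (3 : ℤ) ^ (o' + 1) * hy
  obtain ⟨s, hs⟩ := h1
  refine ⟨s + 2 * 3 ^ o * B, ?_, ?_⟩
  · have : 1 ≤ 3 ^ o := Nat.one_le_pow _ _ (by norm_num)
    nlinarith
  · obtain ⟨m, hm, -⟩ := four_pow o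
    have h2 : (3 : ℤ) ^ o ∣ (2 ^ (2 * 3 ^ o * B) - 1) := by
      have h3 : (3 : ℤ) ^ o ∣ (4 : ℤ) ^ (3 ^ o) - 1 := by
        rw [hm, pow_succ]; exact ⟨3 * m, by ring⟩
      have h4 : ((4 : ℤ) ^ (3 ^ o) - 1) ∣ ((4 : ℤ) ^ (3 ^ o)) ^ B - 1 := by
        simpa using sub_dvd_pow_sub_pow ((4 : ℤ) ^ (3 ^ o)) 1 B
      have h5 : (2 : ℤ) ^ (2 * 3 ^ o * B) = ((4 : ℤ) ^ (3 ^ o)) ^ B := by
        rw [pow_mul, pow_mul]; norm_num
      rw [h5]
      exact h3.trans h4
    have : (2 : ℤ) ^ (s + 2 * 3 ^ o * B) - c = 2 ^ s * (2 ^ (2 * 3 ^ o * B) - 1) + (2 ^ s - c) := by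
      rw [pow_add]; ring
    rw [this]
    exact dvd_add (h2.mul_left _) hs

/-! ### from `T` on the integers to the Collatz map -/

theorem C_iter (k : ℕ) (x : ℕ) : ((C^[k + od k (x : ℤ)] x : ℕ) : ℤ) = T^[k] (x : ℤ) := by
  induction k generalizing x with
  | zero => simp [od]
  | succ k ih =>
    rcases Int.emod_two_eq_zero_or_one (x : ℤ) with h | h
    · have h1 : C x = x / 2 := by unfold C; rw [if_pos (by omega)]
      have h2 : T (x : ℤ) = ((x / 2 : ℕ) : ℤ) := by rw [T_even h]; push_cast; rfl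
      rw [od_even h, Function.iterate_succ_apply, h2, ← ih, ← h1]
      rw [show k + 1 + od k ((C x : ℕ) : ℤ) = (k + od k ((C x : ℕ) : ℤ)) + 1 by ring,
        Function.iterate_succ_apply]
    · have h1 : C (C x) = (3 * x + 1) / 2 := by
        have : C x = 3 * x + 1 := by unfold C; rw [if_neg (by omega)]
        rw [this]; unfold C; rw [if_pos (by omega)]
      have h2 : T (x : ℤ) = (((3 * x + 1) / 2 : ℕ) : ℤ) := by rw [T_odd h]; push_cast; rfl
      rw [od_odd h, Function.iterate_succ_apply, h2, ← ih, ← h1]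
      rw [show k + 1 + (1 + od k ((C (C x) : ℕ) : ℤ)) = (k + od k ((C (C x) : ℕ) : ℤ)) + 1 + 1 by ring,
        Function.iterate_succ_apply, Function.iterate_succ_apply]

theorem C_one (m : ℕ) : C^[m] 1 ≤ 4 := by
  have : ∀ x, x = 1 ∨ x = 2 ∨ x = 4 → (C x = 1 ∨ C x = 2 ∨ C x = 4) := by
    rintro x (rfl | rfl | rfl) <;> decide
  have h : C^[m] 1 = 1 ∨ C^[m] 1 = 2 ∨ C^[m] 1 = 4 := by
    induction m with
    | zero => left; rfl
    | succ m ih => rw [Function.iterate_succ_apply']; exact this _ ih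
  omega

theorem C_pow (s m : ℕ) (h : m ≤ s) : C^[m] (2 ^ s) = 2 ^ (s - m) := by
  induction m with
  | zero => simp
  | succ m ih =>
    rw [Function.iterate_succ_apply', ih (by omega)]
    have e : 2 ^ (s - m) = 2 * 2 ^ (s - (m + 1)) := by
      rw [← pow_succ']; congr 1; omega
    rw [e]; unfold C
    rw [if_pos (by omega)]; omega

/-- an orbit that passes through `2 ^ s`, `s ≥ 3`, at time `K` reaches `1` first at time `K + s` -/
theorem height {x K s : ℕ} (hs : 3 ≤ s) (h : C^[K] x = 2 ^ s) :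
    IsLeast {k : ℕ | C^[k] x = 1} (K + s) := by
  constructor
  · show C^[K + s] x = 1
    rw [add_comm, Function.iterate_add_apply, h, C_pow s s le_rfl]; simp
  · intro k (hk : C^[k] x = 1)
    by_contra hlt
    push Not at hlt
    have h8 : 2 ^ 3 ≤ 2 ^ s := Nat.pow_le_pow_right (by norm_num) hs
    rcases le_total k K with h1 | h1
    · have : C^[K] x = C^[K - k] (C^[k] x) := by
        rw [← Function.iterate_add_apply]; congr 1; omega
      rw [hk, h] at this
      have := C_one (K - k)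
      omega
    · have : C^[k] x = C^[k - K] (C^[K] x) := by
        rw [← Function.iterate_add_apply]; congr 1; omega
      rw [h, C_pow s (k - K) (by omega), hk] at this
      have h3 : 2 ^ 1 ≤ 2 ^ (s - (k - K)) := Nat.pow_le_pow_right (by norm_num) (by omega)
      omega

/-- For every `L` (and every bound `B`) there is an integer `n ≥ 1`, `n ≥ B`, such that the `L`
consecutive integers `n, n + 1, ..., n + L - 1` all have the same finite height `h`: for each of them
`h` is the least `k ≥ 0` with `C^k = 1`. -/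
theorem result : ∀ L B : ℕ, ∃ n : ℕ, 1 ≤ n ∧ B ≤ n ∧
    ∃ h : ℕ, ∀ i < L, IsLeast {k : ℕ | C^[k] (n + i) = 1} h := by
  intro L B
  rcases Nat.eq_zero_or_pos L with hL | hL
  · subst hL
    exact ⟨B + 1, by omega, by omega, 0, fun i hi => absurd hi (by omega)⟩
  obtain ⟨k, r, H⟩ := runs L
  set c := T^[k] r with hc
  set o := od k r with ho
  have hc3 : o = 0 ∨ ¬ (3 : ℤ) ∣ c := by
    rcases Nat.eq_zero_or_pos o with h | h
    · exact Or.inl h
    · exact Or.inr (T_mod_three k r h)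
  obtain ⟨s, hsB, q, hq⟩ := two_pow_mod o c hc3
    (3 + (c + 3 ^ o * ((B : ℤ) + 1 + |r|)).toNat)
  -- `q` is large
  have hbig : (c + 3 ^ o * ((B : ℤ) + 1 + |r|)) ≤ 2 ^ s := by
    have h1 : (c + 3 ^ o * ((B : ℤ) + 1 + |r|)) ≤ ((c + 3 ^ o * ((B : ℤ) + 1 + |r|)).toNat : ℤ) :=
      Int.self_le_toNat _
    have h2 : ((c + 3 ^ o * ((B : ℤ) + 1 + |r|)).toNat : ℤ) ≤ s := by
      have : (c + 3 ^ o * ((B : ℤ) + 1 + |r|)).toNat ≤ s := by omega
      exact_mod_cast this
    have h3 : (s : ℤ) < 2 ^ s := by exact_mod_cast Nat.lt_two_pow_self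
    linarith
  have h3o : (0 : ℤ) < 3 ^ o := by positivity
  have hqB : (B : ℤ) + 1 + |r| ≤ q := by
    have : 3 ^ o * ((B : ℤ) + 1 + |r|) ≤ 3 ^ o * q := by linarith
    exact le_of_mul_le_mul_left this h3o
  have h2k : (1 : ℤ) ≤ 2 ^ k := one_le_pow₀ (by norm_num)
  have hn : (B : ℤ) + 1 ≤ r + 2 ^ k * q := by
    have h4 : q ≤ 2 ^ k * q := by
      have : 0 ≤ q := by have := abs_nonneg r; linarith [(Nat.cast_nonneg B : (0 : ℤ) ≤ B)]
      nlinarith
    have := neg_abs_le r
    linarith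
  obtain ⟨n, hn'⟩ := Int.eq_ofNat_of_zero_le (show 0 ≤ r + 2 ^ k * q by
    linarith [(Nat.cast_nonneg B : (0 : ℤ) ≤ B)])
  have hn2 : ((n : ℕ) : ℤ) = r + 2 ^ k * q := by rw [hn']
  refine ⟨n, by omega, by omega, k + o + s, fun i hi => ?_⟩
  obtain ⟨h1, h2⟩ := affine k r q
  rw [← hn2, ← hc, ← ho] at h1
  rw [← hn2, ← ho] at h2
  obtain ⟨h3, h4⟩ := H (n : ℤ) ⟨q, by rw [hn2]; ring⟩ i hi
  apply height (by omega)
  have h5 := C_iter k (n + i)
  push_cast at h5
  rw [h4, h2, h3, h1] at h5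
  have h6 : c + 3 ^ o * q = 2 ^ s := by linear_combination -hq
  rw [h6] at h5
  exact_mod_cast h5

end Pool.Agent.Results.MP_e99302_nt.LongRuns
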